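import Pool.Agent.H43.SAK.Stmts

/-! Project SAK, module SET: the set inequality from the polynomial method. -/

set_option autoImplicit false
set_option linter.unusedVariables false

namespace Pool.Agent.H43.SAK

open Finset

/-- if many slices are small then the set is small -/
theorem set_few (hp : PmSt) (hd : DrSt) (p : ℕ) [Fact p.Prime] (η : ℝ) (hη : 0 < η)
    (V : Type) [AddCommGroup V] [Module (ZMod p) V] [Finite V] [DecidableEq V]
    (D : Finset V) (x : V → V) (hD : D.Nonempty) (T : ℝ) (Θ : Finset (ZMod p))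
    (hΘ : ∀ t ∈ Θ, ((sl D x t).card : ℝ) < T) (hθ : η * p ≤ Θ.card) :
    (D.card : ℝ) < T * ((2 : ℝ) ^ (3 + 1 / η) *
      (D.card : ℝ) ^ (2 * (1 + 1 / η) * Real.log 2 / Real.log p)) := by
  have hpp : p.Prime := Fact.out
  have hp2 : (2 : ℝ) ≤ p := by exact_mod_cast hpp.two_le
  have hlp : 0 < Real.log p := Real.log_pos (by linarith)
  have hl2 : 0 < Real.log 2 := Real.log_pos (by norm_num)
  obtain ⟨m, hm, L, hL⟩ := hd p V D hD
  set θ : ℕ := Θ.card with hθd
  have hθ0 : (0 : ℝ) < θ := lt_of_lt_of_le (by positivity) hθ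
  have hΘne : Θ.Nonempty := by
    rw [← Finset.card_pos]
    exact_mod_cast hθ0
  set x' : (Fin m → ZMod p) → (Fin m → ZMod p) :=
    fun w => L (x (Function.invFunOn L (D : Set V) w)) with hx'
  have hinv := hL.leftInvOn_invFunOn
  have hsl : ∀ t : ZMod p, sl (D.image L) x' t = (sl D x t).image L := by
    intro t
    unfold sl
    rw [Finset.image_image, Finset.image_image]
    apply Finset.image_congr
    intro d hd'
    simp only [Function.comp_apply, hx']
    rw [hinv hd', map_add, map_smul]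
  have hcard : (D.image L).card = D.card := Finset.card_image_of_injOn hL
  set r : ℕ := ⌈(m * p : ℝ) / θ⌉₊ + 1 with hr
  have hpm := hp p m r (D.image L) x' Θ
  rw [hcard] at hpm
  have h1 : m * p + θ ≤ r * θ := by
    have h2 : (m * p : ℝ) / θ ≤ ⌈(m * p : ℝ) / θ⌉₊ := Nat.le_ceil _
    rw [div_le_iff₀ hθ0] at h2
    have h3 : ((m * p + θ : ℕ) : ℝ) ≤ ((r * θ : ℕ) : ℝ) := by
      rw [hr]
      push_cast
      linarith
    exact_mod_cast h3
  have h2 : θ ≤ r * θ - m * (p - 1) := by
    have h3 : m * (p - 1) ≤ m * p := Nat.mul_le_mul_left _ (Nat.sub_le _ _)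
    omega
  have h3 : D.card * θ ≤ (∑ t ∈ Θ, (sl D x t).card) * 2 ^ (m + r) := by
    calc D.card * θ ≤ D.card * (r * θ - m * (p - 1)) := Nat.mul_le_mul_left _ h2
      _ ≤ (∑ t ∈ Θ, (sl (D.image L) x' t).card) * (m + r).choose (m + 1) := hpm
      _ ≤ _ := by
        apply Nat.mul_le_mul
        · apply Finset.sum_le_sum
          intro t _
          rw [hsl]
          exact Finset.card_image_le
        · exact Nat.choose_le_two_pow _ _
  have h4 : (∑ t ∈ Θ, ((sl D x t).card : ℝ)) < θ * T := by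
    have := Finset.sum_lt_sum_of_nonempty hΘne hΘ
    rwa [Finset.sum_const, nsmul_eq_mul] at this
  have h5 : (D.card : ℝ) < T * 2 ^ (m + r) := by
    have h6 : (D.card : ℝ) * θ ≤ (∑ t ∈ Θ, ((sl D x t).card : ℝ)) * 2 ^ (m + r) := by
      exact_mod_cast h3
    have h7 : (∑ t ∈ Θ, ((sl D x t).card : ℝ)) * 2 ^ (m + r) < (θ * T) * 2 ^ (m + r) :=
      mul_lt_mul_of_pos_right h4 (by positivity)
    have h8 : (D.card : ℝ) * θ < (T * 2 ^ (m + r)) * θ := by
      calc _ < (θ * T) * 2 ^ (m + r) := lt_of_le_of_lt h6 h7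
        _ = _ := by ring
    exact lt_of_mul_lt_mul_right h8 hθ0.le
  have hT : 0 < T := by
    obtain ⟨t, ht⟩ := hΘne
    exact lt_of_le_of_lt (Nat.cast_nonneg _) (hΘ t ht)
  have hN1 : (1 : ℝ) ≤ D.card := by exact_mod_cast hD.card_pos
  have hlN : 0 ≤ Real.log D.card := Real.log_nonneg hN1
  -- bound of m
  have h6 : (m : ℝ) * Real.log p ≤ 2 * Real.log D.card + Real.log p := by
    have h7 : ((p : ℝ)) ^ m ≤ (D.card : ℝ) ^ 2 * p := by exact_mod_cast hm
    have h8 := Real.log_le_log (by positivity) h7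
    rw [Real.log_pow, Real.log_mul (by positivity) (by positivity), Real.log_pow] at h8
    push_cast at h8
    exact h8
  have h7 : (m : ℝ) ≤ 1 + 2 * Real.log D.card / Real.log p := by
    rw [← sub_le_iff_le_add', le_div_iff₀ hlp]
    linarith
  -- bound of r
  have h8 : (r : ℝ) ≤ m * (1 / η) + 2 := by
    have h9 : (⌈(m * p : ℝ) / θ⌉₊ : ℝ) < (m * p : ℝ) / θ + 1 := Nat.ceil_lt_add_one (by positivity)
    have h10 : (m * p : ℝ) / θ ≤ m * (1 / η) := by
      rw [div_le_iff₀ hθ0]
      have : (p : ℝ) ≤ 1 / η * θ := by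
        rw [one_div, inv_mul_eq_div, le_div_iff₀ hη]
        linarith
      calc (m : ℝ) * p ≤ m * (1 / η * θ) := mul_le_mul_of_nonneg_left this (by positivity)
        _ = _ := by ring
    rw [hr]
    push_cast
    linarith
  refine lt_of_lt_of_le h5 (mul_le_mul_of_nonneg_left ?_ hT.le)
  have hη' : 0 < 1 / η := by positivity
  have h9 : ((m + r : ℕ) : ℝ) ≤ 3 + 1 / η + (1 + 1 / η) * (2 * Real.log D.card / Real.log p) := by
    push_cast
    have h10 : (m : ℝ) * (1 + 1 / η) ≤ (1 + 2 * Real.log D.card / Real.log p) * (1 + 1 / η) :=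
      mul_le_mul_of_nonneg_right h7 (by positivity)
    nlinarith
  have h10 : (2 : ℝ) ^ (m + r) = Real.exp (Real.log 2 * ((m + r : ℕ) : ℝ)) := by
    rw [← Real.rpow_natCast, Real.rpow_def_of_pos (by norm_num)]
  have h11 : (2 : ℝ) ^ (3 + 1 / η) *
      (D.card : ℝ) ^ (2 * (1 + 1 / η) * Real.log 2 / Real.log p) =
      Real.exp (Real.log 2 * (3 + 1 / η + (1 + 1 / η) * (2 * Real.log D.card / Real.log p))) := by
    rw [Real.rpow_def_of_pos (by norm_num), Real.rpow_def_of_pos (by linarith), ← Real.exp_add]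
    congr 1
    field_simp
  rw [h10, h11]
  apply Real.exp_le_exp.2
  exact mul_le_mul_of_nonneg_left h9 hl2.le

theorem set (hp : PmSt) (hd : DrSt) : SetSt := by
  intro ε hε
  set e : ℝ := min ε 1 with he
  have he0 : 0 < e := lt_min hε one_pos
  have he1 : e ≤ 1 := min_le_right _ _
  have heε : e ≤ ε := min_le_left _ _
  set η : ℝ := e / 4 with hη
  have hη0 : 0 < η := by positivity
  have hl2 : 0 < Real.log 2 := Real.log_pos (by norm_num)
  obtain ⟨p₀, hp₀⟩ := exists_nat_ge (Real.exp (2 * (1 + 1 / η) * Real.log 2 * (3 / e)))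
  refine ⟨p₀, fun p hpp hprime => ?_⟩
  have : Fact p.Prime := ⟨hprime⟩
  have hp2 : (2 : ℝ) ≤ p := by exact_mod_cast hprime.two_le
  have hlp : 0 < Real.log p := Real.log_pos (by linarith)
  set κ : ℝ := 2 * (1 + 1 / η) * Real.log 2 / Real.log p with hκ
  have hκ0 : 0 ≤ κ := by positivity
  have hκ1 : κ ≤ e / 3 := by
    have h1 : Real.exp (2 * (1 + 1 / η) * Real.log 2 * (3 / e)) ≤ p :=
      hp₀.trans (by exact_mod_cast hpp)
    have h2 := Real.log_le_log (Real.exp_pos _) h1
    rw [Real.log_exp] at h2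
    rw [hκ, div_le_iff₀ hlp]
    have h3 : e / 3 * (2 * (1 + 1 / η) * Real.log 2 * (3 / e)) ≤ e / 3 * Real.log p :=
      mul_le_mul_of_nonneg_left h2 (by positivity)
    have h4 : e / 3 * (2 * (1 + 1 / η) * Real.log 2 * (3 / e)) = 2 * (1 + 1 / η) * Real.log 2 := by
      field_simp
    linarith
  set C₀ : ℝ := (2 : ℝ) ^ (3 + 1 / η) with hC₀
  have hC₀1 : 1 ≤ C₀ := Real.one_le_rpow (by norm_num) (by positivity)
  refine ⟨C₀ ^ 2, by positivity, ?_⟩
  intro V _ _ _ _ _ D x
  rcases D.eq_empty_or_nonempty with hD | hD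
  · subst hD
    simp only [Finset.card_empty, Nat.cast_zero]
    apply mul_nonneg (by positivity)
    exact Finset.prod_nonneg fun t _ => Real.rpow_nonneg (Nat.cast_nonneg _) _
  set N : ℝ := (D.card : ℝ) with hN
  have hN1 : 1 ≤ N := by rw [hN]; exact_mod_cast hD.card_pos
  have hN0 : 0 < N := by linarith
  set T : ℝ := N ^ (1 - κ) / C₀ with hT
  have hT0 : 0 < T := by positivity
  have hsl1 : ∀ t : ZMod p, (1 : ℝ) ≤ (sl D x t).card := by
    intro t
    have : (sl D x t).Nonempty := hD.image _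
    exact_mod_cast this.card_pos
  have hpow1 : ∀ t : ZMod p, (1 : ℝ) ≤ ((sl D x t).card : ℝ) ^ ((1 + ε) / p) := fun t =>
    Real.one_le_rpow (hsl1 t) (by positivity)
  by_cases hT1 : T ≤ 1
  · -- small sets
    have h1 : N ^ (1 - κ) ≤ C₀ := by
      rw [hT, div_le_one (by positivity)] at hT1
      exact hT1
    have h2 : N ≤ C₀ ^ 2 := by
      have h3 : N ≤ (N ^ (1 - κ)) ^ (2 : ℝ) := by
        rw [← Real.rpow_mul hN0.le]
        calc N = N ^ (1 : ℝ) := (Real.rpow_one _).symm
          _ ≤ N ^ ((1 - κ) * 2) := Real.rpow_le_rpow_of_exponent_le hN1 (by linarith)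
      have h4 : (N ^ (1 - κ)) ^ (2 : ℝ) ≤ C₀ ^ (2 : ℝ) :=
        Real.rpow_le_rpow (by positivity) h1 (by norm_num)
      have h5 : C₀ ^ (2 : ℝ) = C₀ ^ 2 := by
        rw [← Real.rpow_natCast]
        norm_num
      rw [h5] at h4
      exact h3.trans h4
    refine h2.trans ?_
    have h6 : (1 : ℝ) ≤ ∏ t : ZMod p, ((sl D x t).card : ℝ) ^ ((1 + ε) / p) := by
      calc (1 : ℝ) = ∏ t : ZMod p, (1 : ℝ) := by simp
        _ ≤ _ := Finset.prod_le_prod (fun _ _ => zero_le_one) (fun t _ => hpow1 t)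
    nlinarith [sq_nonneg C₀]
  · push Not at hT1
    set Θ : Finset (ZMod p) := Finset.univ.filter (fun t => ((sl D x t).card : ℝ) < T) with hΘ
    have hfew : (Θ.card : ℝ) < η * p := by
      by_contra hcon
      push Not at hcon
      have h1 := set_few hp hd p η hη0 V D x hD T Θ (fun t ht => by
        rw [hΘ, Finset.mem_filter] at ht
        exact ht.2) hcon
      rw [← hN, ← hκ, ← hC₀] at h1
      have h2 : T * (C₀ * N ^ κ) = N := by
        rw [hT]
        have h3 : N ^ (1 - κ) / C₀ * (C₀ * N ^ κ) = N ^ (1 - κ) * N ^ κ := by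
          field_simp
        rw [h3, ← Real.rpow_add hN0]
        simp
      linarith
    -- the product over the other slopes
    have hprod : T ^ (((1 + ε) / p) * ((p : ℝ) - Θ.card)) ≤
        ∏ t : ZMod p, ((sl D x t).card : ℝ) ^ ((1 + ε) / p) := by
      have h1 : ∏ t : ZMod p, ((sl D x t).card : ℝ) ^ ((1 + ε) / p) ≥
          ∏ t : ZMod p, (if t ∈ Θ then (1 : ℝ) else T ^ ((1 + ε) / p)) := by
        apply Finset.prod_le_prod
        · intro t _
          split_ifs
          · exact zero_le_one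
          · positivity
        · intro t _
          split_ifs with h
          · exact hpow1 t
          · rw [hΘ, Finset.mem_filter] at h
            simp only [Finset.mem_univ, true_and, not_lt] at h
            exact Real.rpow_le_rpow hT0.le h (by positivity)
      refine le_trans (le_of_eq ?_) h1
      rw [Finset.prod_ite, Finset.prod_const_one, one_mul, Finset.prod_const,
        ← Real.rpow_natCast, ← Real.rpow_mul hT0.le]
      congr 1
      congr 1
      have h2 : (Finset.univ.filter (fun t : ZMod p => t ∉ Θ)).card = p - Θ.card := by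
        have h3 : Finset.univ.filter (fun t : ZMod p => t ∉ Θ) = Finset.univ \ Θ := by
          ext t
          simp
        rw [h3, Finset.card_sdiff_of_subset (Finset.subset_univ _), Finset.card_univ, ZMod.card]
      rw [h2, Nat.cast_sub]
      calc Θ.card ≤ (Finset.univ : Finset (ZMod p)).card := Finset.card_le_univ _
        _ = p := by rw [Finset.card_univ, ZMod.card]
    set s : ℝ := (1 + e) * (1 - η) with hs
    have hs2 : s ≤ 2 := by
      rw [hs]
      nlinarith
    have hs1 : 1 ≤ (1 - κ) * s := by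
      have h1 : 1 + e / 2 ≤ s := by
        rw [hs, hη]
        nlinarith
      have h2 : 1 - e / 3 ≤ 1 - κ := by linarith
      have h3 : (1 - e / 3) * (1 + e / 2) ≤ (1 - κ) * s :=
        mul_le_mul h2 h1 (by linarith) (by linarith)
      nlinarith
    have h1 : T ^ s ≤ T ^ (((1 + ε) / p) * ((p : ℝ) - Θ.card)) := by
      apply Real.rpow_le_rpow_of_exponent_le hT1.le
      have h2 : (1 - η) * p ≤ (p : ℝ) - Θ.card := by linarith
      have h3 : (1 + e) / p * ((1 - η) * p) ≤ (1 + ε) / p * ((p : ℝ) - Θ.card) := by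
        apply mul_le_mul _ h2 _ (by positivity)
        · gcongr
        · apply mul_nonneg _ (by positivity)
          linarith
      refine le_trans (le_of_eq ?_) h3
      rw [hs]
      field_simp
    have h2 : N / C₀ ^ 2 ≤ T ^ s := by
      rw [hT, Real.div_rpow (by positivity) (by positivity), ← Real.rpow_mul hN0.le]
      apply div_le_div₀ (by positivity)
      · calc N = N ^ (1 : ℝ) := (Real.rpow_one _).symm
          _ ≤ _ := Real.rpow_le_rpow_of_exponent_le hN1 hs1
      · positivity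
      · calc C₀ ^ s ≤ C₀ ^ (2 : ℝ) := Real.rpow_le_rpow_of_exponent_le hC₀1 hs2
          _ = C₀ ^ 2 := by
            rw [← Real.rpow_natCast]
            norm_num
    have h3 := h2.trans (h1.trans hprod)
    rw [div_le_iff₀ (by positivity)] at h3
    linarith

end Pool.Agent.H43.SAK
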